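import Pool.Agent.Helper78.LM.Goals

/-! # Project LM, packet PTI: the tables are computed in polynomial time -/

namespace Pool.Agent.Helper8.LM

open Pool.Agent.Helper81.CC Pool.Agent.Helper51.ZP Pool.Agent.Bin Pool.Agent.Helper31.TMSim
open Pool.Agent.Helper83.CL Pool.Agent.Helper78.LM Computability

theorem PT_of_PTC {β γ : Type} [ToData β] [ToData γ] {f : β → γ}
    (h : PolyTimeComputable (encOf β) (encOf γ) f) : PolyTime f := ⟨scomp_of_polyTimeComputable h⟩

variable {α : Type} [ToData α]

theorem PT_toNat {f : α → Bool} (hf : PolyTime f) : PolyTime (fun a => (f a).toNat) := by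
  have h : PolyTime (fun a => if f a = true then 1 else 0) :=
    PolyTime.ite hf (by fun_prop) (by fun_prop)
  refine PolyTime.congr h fun a => ?_
  cases f a <;> rfl

section
variable (A : LinMachine)

theorem PT_dim {x : α → List Bool} (hx : PolyTime x) : PolyTime (fun a => A.dim (x a)) :=
  PT_eval A.m (PolyTime.length hx)

theorem PT_mid {x : α → List Bool} {t : α → ℕ} {b : α → Bool} {g : α → List Bool}
    (hx : PolyTime x) (ht : PolyTime t) (hb : PolyTime b) (hg : PolyTime g) :
    PolyTime (fun a => mid A (x a) (t a) (b a) (g a)) := by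
  have hform : PolyTime A.form := PT_of_PTC A.form_poly
  have h1 : PolyTime (fun z : α × ℕ => A.form (x z.1, t z.1)) :=
    PolyTime.comp hform (PolyTime.pair (by fun_prop) (by fun_prop))
  refine PolyTime.list_map (f := fun a i => xor (b a && (A.form (x a, t a)).getD i false)
    ((g a).getD i false)) (PolyTime.range (PT_dim A hx)) ?_
  exact PolyTime.xor (PolyTime.and (by fun_prop) (PolyTime.getD h1 (by fun_prop) (by fun_prop)))
    (PolyTime.getD (by fun_prop) (by fun_prop) (by fun_prop))

theorem PT_bck {x : α → List Bool} {t : α → ℕ} {h : α → List Bool}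
    (hx : PolyTime x) (ht : PolyTime t) (hh : PolyTime h) :
    PolyTime (fun a => bck A (x a) (t a) (h a)) := by
  have hrow : PolyTime A.row := PT_of_PTC A.row_poly
  have h1 : PolyTime (fun z : (α × ℕ) × ℕ => A.row (x z.1.1, t z.1.1, z.2)) :=
    PolyTime.comp hrow (PolyTime.pair (by fun_prop) (PolyTime.pair (by fun_prop) (by fun_prop)))
  refine PolyTime.list_map (f := fun a j => par ((List.range (A.dim (x a))).map fun i =>
    (h a).getD i false && (A.row (x a, t a, i)).getD j false)) (PolyTime.range (PT_dim A hx)) ?_
  refine PT_par (PolyTime.list_map (f := fun (z : α × ℕ) i =>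
    (h z.1).getD i false && (A.row (x z.1, t z.1, i)).getD z.2 false)
    (PolyTime.range (PT_dim A (by fun_prop))) ?_)
  exact PolyTime.and (PolyTime.getD (by fun_prop) (by fun_prop) (by fun_prop))
    (PolyTime.getD h1 (by fun_prop) (by fun_prop))

theorem length_mid (x : List Bool) (t : ℕ) (a : Bool) (g : List Bool) :
    (mid A x t a g).length = A.dim x := by simp [mid]

theorem length_bck (x : List Bool) (t : ℕ) (h : List Bool) :
    (bck A x t h).length = A.dim x := by simp [bck]

theorem length_back (x : List Bool) (t : ℕ) (a : List Bool) :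
    (back A x t a).length ≤ A.dim x := by
  cases a with
  | nil => simp [back]
  | cons b a => rw [back, length_bck]

theorem length_mids (x : List Bool) (t : ℕ) (a : List Bool) :
    (mids A x t a).length = a.length := by
  induction a generalizing t with
  | nil => rfl
  | cons b a ih => simp [mids, ih]

theorem mem_mids (x : List Bool) (t : ℕ) (a : List Bool) :
    ∀ l ∈ mids A x t a, l.length = A.dim x := by
  induction a generalizing t with
  | nil => simp [mids]
  | cons b a ih =>
    intro l hl
    rw [mids, List.mem_cons] at hl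
    rcases hl with rfl | hl
    · exact length_mid A x t b _
    · exact ih (t + 1) l hl

/-- one step of the backward iteration -/
def stepM (x a : List Bool) (s : List (List Bool) × List Bool × ℕ) :
    List (List Bool) × List Bool × ℕ :=
  (mid A x (s.2.2 - 1) (a.getD (s.2.2 - 1) false) s.2.1 :: s.1,
    bck A x (s.2.2 - 1) (mid A x (s.2.2 - 1) (a.getD (s.2.2 - 1) false) s.2.1), s.2.2 - 1)

theorem iter_stepM (x a : List Bool) (k : ℕ) (hk : k ≤ a.length) :
    (stepM A x a)^[k] ([], [], a.length) = (mids A x (a.length - k) (a.drop (a.length - k)),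
      back A x (a.length - k) (a.drop (a.length - k)), a.length - k) := by
  induction k with
  | zero => simp [mids, back]
  | succ k ih =>
    rw [Function.iterate_succ_apply', ih (by omega)]
    have hs : a.length - k - 1 = a.length - (k + 1) := by omega
    have hs1 : a.length - k = a.length - (k + 1) + 1 := by omega
    have hlt : a.length - (k + 1) < a.length := by omega
    have hd : a.drop (a.length - (k + 1)) =
        a.getD (a.length - (k + 1)) false :: a.drop (a.length - (k + 1) + 1) := by
      rw [List.drop_eq_getElem_cons hlt, List.getD_eq_getElem _ _ hlt]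
    rw [hd]
    simp only [stepM, mids, back, hs]
    rw [hs1]

theorem PT_mids {x a : α → List Bool} (hx : PolyTime x) (ha : PolyTime a) :
    PolyTime (fun z => mids A (x z) 0 (a z)) := by
  have hd : PolyTime (fun z => A.dim (x z)) := PT_dim A hx
  have hl : PolyTime (fun z => (a z).length) := PolyTime.length ha
  have hlen : PBd (fun z => (a z).length) := PBd.nat hl
  have h1 : PolyTime (fun z => (stepM A (x z) (a z))^[(a z).length] ([], [], (a z).length)) := by
    refine PolyTime.iterate_bd (n := fun z => (a z).length) (s0 := fun z => ([], [], (a z).length))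
      (step := fun z s => stepM A (x z) (a z) s) hl (by fun_prop) ?_
      (B := fun z => ((a z).length * (4 * A.dim (x z) + 1 + 1) + 1) +
        ((4 * A.dim (x z) + 1) + (2 * (a z).length + 1) + 1) + 1) ?_ ?_
    · have hm : PolyTime (fun z : α × List (List Bool) × List Bool × ℕ =>
          mid A (x z.1) (z.2.2.2 - 1) ((a z.1).getD (z.2.2.2 - 1) false) z.2.2.1) :=
        PT_mid A (by fun_prop) (by fun_prop) (PolyTime.getD (by fun_prop) (by fun_prop) (by fun_prop))
          (by fun_prop)
      exact PolyTime.pair (PolyTime.list_cons hm (by fun_prop))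
        (PolyTime.pair (PT_bck A (by fun_prop) (by fun_prop) hm) (by fun_prop))
    · have hdb : PBd (fun z => A.dim (x z)) := PBd.nat hd
      exact (((hlen.mul ((((PBd.const 4).mul hdb).add (PBd.const 1)).add (PBd.const 1))).add
        (PBd.const 1)).add (((((PBd.const 4).mul hdb).add (PBd.const 1)).add
          (((PBd.const 2).mul hlen).add (PBd.const 1))).add (PBd.const 1))).add (PBd.const 1)
    · intro z k hk
      have e := iter_stepM A (x z) (a z) k hk
      change sz ((stepM A (x z) (a z))^[k] ([], [], (a z).length)) ≤ _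
      rw [e, sz_pair, sz_pair, sz_nat]
      set s := (a z).length - k with hs
      have q1 : sz (mids A (x z) s ((a z).drop s)) ≤
          (a z).length * (4 * A.dim (x z) + 1 + 1) + 1 := by
        refine (sz_list_le (4 * A.dim (x z) + 1) _ ?_).trans ?_
        · intro b hb
          have h5 := mem_mids A _ _ _ b hb
          have h6 := sz_bools b
          omega
        · rw [length_mids, List.length_drop]
          exact Nat.add_le_add_right (Nat.mul_le_mul_right _ (Nat.sub_le _ _)) _
      have q2 : sz (back A (x z) s ((a z).drop s)) ≤ 4 * A.dim (x z) + 1 := by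
        have h5 := length_back A (x z) s ((a z).drop s)
        have h6 := sz_bools (back A (x z) s ((a z).drop s))
        omega
      omega
  refine PolyTime.congr (PolyTime.fst h1) fun z => ?_
  rw [iter_stepM A (x z) (a z) _ le_rfl]
  simp

theorem PT_stg {x : α → List Bool} {t : α → ℕ} {h : α → List Bool} {b : α → Bool}
    (hx : PolyTime x) (ht : PolyTime t) (hh : PolyTime h) (hb : PolyTime b) :
    PolyTime (fun a => stg A (x a) (t a) (h a) (b a)) := by
  have hnext : PolyTime A.next := PT_of_PTC A.next_poly
  have hpush : PolyTime A.push := PT_of_PTC A.push_poly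
  have hvec : PolyTime A.vec := PT_of_PTC A.vec_poly
  have hreads : PolyTime A.reads := PT_of_PTC A.reads_poly
  have hw : PolyTime (fun x : List Bool => A.w.eval x.length) := PT_eval A.w (by fun_prop)
  have hv : PolyTime (fun z : ((α × ℕ) × ℕ) × Bool × Bool => ((x z.1.1.1, t z.1.1.1,
      z.1.1.2 / 4, z.1.2, z.2.1, decide (z.1.1.2 % 2 = 1)) : View)) := by fun_prop
  have hp : PolyTime (fun z : ((α × ℕ) × ℕ) × Bool × Bool =>
      ((4 * A.next (x z.1.1.1, t z.1.1.1, z.1.1.2 / 4, z.1.2, z.2.1, decide (z.1.1.2 % 2 = 1)) +
        2 * (xor (xor (decide (z.1.1.2 / 2 % 2 = 1))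
          (par (List.zipWith (fun a b => a && b) (h z.1.1.1)
            (A.vec (x z.1.1.1, t z.1.1.1, z.1.1.2 / 4, z.1.2, z.2.1,
              decide (z.1.1.2 % 2 = 1)))))) (b z.1.1.1 && z.2.2)).toNat + z.2.2.toNat,
        A.push (x z.1.1.1, t z.1.1.1, z.1.1.2 / 4, z.1.2, z.2.1,
          decide (z.1.1.2 % 2 = 1))) : Move)) := by
    refine PolyTime.pair ?_ (PolyTime.comp hpush hv)
    refine PolyTime.add (PolyTime.add (PolyTime.mul (by fun_prop) (PolyTime.comp hnext hv))
      (PolyTime.mul (by fun_prop) (PT_toNat ?_))) (PT_toNat (by fun_prop))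
    refine PolyTime.xor (PolyTime.xor (by fun_prop) (PT_par ?_)) (by fun_prop)
    exact PolyTime.zipWith (f := fun _ a b => a && b) (by fun_prop) (by fun_prop)
      (PolyTime.comp hvec hv)
  have hr : PolyTime (fun z : (α × ℕ) × ℕ => A.reads (x z.1.1, t z.1.1)) :=
    PolyTime.comp hreads (by fun_prop)
  have hr2 : PolyTime (fun z : (α × ℕ) × ℕ =>
      ((if A.reads (x z.1.1, t z.1.1) = true then
        [(false, false), (true, false), (false, true), (true, true)]
      else [(false, false), (true, false)]) : List (Bool × Bool))) :=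
    PolyTime.ite hr (by fun_prop) (by fun_prop)
  refine PolyTime.list_map (f := fun a Q => (List.range (A.w.eval (x a).length)).map fun s =>
    ((if A.reads (x a, t a) = true then [(false, false), (true, false), (false, true), (true, true)]
      else [(false, false), (true, false)]) : List (Bool × Bool)).map fun p =>
      ((4 * A.next (x a, t a, Q / 4, s, p.1, decide (Q % 2 = 1)) +
        2 * (xor (xor (decide (Q / 2 % 2 = 1))
          (par (List.zipWith (fun a b => a && b) (h a)
            (A.vec (x a, t a, Q / 4, s, p.1, decide (Q % 2 = 1)))))) (b a && p.2)).toNat + p.2.toNat,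
        A.push (x a, t a, Q / 4, s, p.1, decide (Q % 2 = 1))) : Move))
    (PolyTime.range (PolyTime.mul (PolyTime.const 4) (PolyTime.comp hw hx))) ?_
  refine PolyTime.list_map (f := fun (z : α × ℕ) s =>
    ((if A.reads (x z.1, t z.1) = true then
        [(false, false), (true, false), (false, true), (true, true)]
      else [(false, false), (true, false)]) : List (Bool × Bool)).map fun p =>
      ((4 * A.next (x z.1, t z.1, z.2 / 4, s, p.1, decide (z.2 % 2 = 1)) +
        2 * (xor (xor (decide (z.2 / 2 % 2 = 1))
          (par (List.zipWith (fun a b => a && b) (h z.1)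
            (A.vec (x z.1, t z.1, z.2 / 4, s, p.1, decide (z.2 % 2 = 1))))))
            (b z.1 && p.2)).toNat + p.2.toNat,
        A.push (x z.1, t z.1, z.2 / 4, s, p.1, decide (z.2 % 2 = 1))) : Move))
    (PolyTime.range (PolyTime.comp (f := fun z : α × ℕ => x z.1) hw (by fun_prop))) ?_
  exact PolyTime.list_map (f := fun (z : (α × ℕ) × ℕ) (p : Bool × Bool) =>
      ((4 * A.next (x z.1.1, t z.1.1, z.1.2 / 4, z.2, p.1, decide (z.1.2 % 2 = 1)) +
        2 * (xor (xor (decide (z.1.2 / 2 % 2 = 1))
          (par (List.zipWith (fun a b => a && b) (h z.1.1)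
            (A.vec (x z.1.1, t z.1.1, z.1.2 / 4, z.2, p.1, decide (z.1.2 % 2 = 1))))))
            (b z.1.1 && p.2)).toNat + p.2.toNat,
        A.push (x z.1.1, t z.1.1, z.1.2 / 4, z.2, p.1, decide (z.1.2 % 2 = 1))) : Move)) hr2 hp

end

theorem pti : PtiStmt := by
  intro A
  have hT : PolyTime (fun z : List Bool × List Bool => A.stages z.1) :=
    PT_eval A.T (by fun_prop)
  refine PolyTime.list_map (f := fun (z : List Bool × List Bool) t =>
    stg A z.1 t ((mids A z.1 0 z.2).getD t []) (z.2.getD t false)) (PolyTime.range hT) ?_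
  have hm : PolyTime (fun z : (List Bool × List Bool) × ℕ => mids A z.1.1 0 z.1.2) :=
    PT_mids A (by fun_prop) (by fun_prop)
  exact PT_stg A (by fun_prop) (by fun_prop) (PolyTime.getD hm (by fun_prop) (by fun_prop))
    (PolyTime.getD (by fun_prop) (by fun_prop) (by fun_prop))

end Pool.Agent.Helper8.LM
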