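import Pool.Agent.Helper67.LM.Defs

/-!
# SYM: symmetries of the standard simplex
-/

set_option autoImplicit false

open MeasureTheory Set
open scoped ENNReal
open Pool.Agent.Helper47.AQ

noncomputable section

namespace Pool.Agent.Helper8.LM

open Pool.Agent.Helper67.LM

section basic

variable {ι : Type} [Fintype ι]

theorem sum_bc (x : ι → ℝ) : ∑ o, bc x o = 1 := by
  rw [Fintype.sum_option]
  show (1 - ∑ i, x i) + ∑ i, x i = 1
  ring

theorem mem_T_iff (x : ι → ℝ) : x ∈ T ι ↔ ∀ o, 0 ≤ bc x o := by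
  constructor
  · rintro ⟨h1, h2⟩ o
    cases o with
    | none => show 0 ≤ 1 - ∑ i, x i; linarith
    | some i => exact h1 i
  · intro h
    refine ⟨fun i => h (some i), ?_⟩
    have h1 : 0 ≤ 1 - ∑ i, x i := h none
    linarith

/-- the linear part of the barycentric coordinates -/
def bl (x : ι → ℝ) : Option ι → ℝ
  | none => -∑ i, x i
  | some i => x i

theorem sum_bl (x : ι → ℝ) : ∑ o, bl x o = 0 := by
  rw [Fintype.sum_option]
  show (-∑ i, x i) + ∑ i, x i = 0
  ring

theorem bl_add (x y : ι → ℝ) (o : Option ι) : bl (x + y) o = bl x o + bl y o := by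
  cases o with
  | none =>
    show -∑ i, (x i + y i) = -∑ i, x i + -∑ i, y i
    rw [Finset.sum_add_distrib]; ring
  | some i => rfl

theorem bl_smul (c : ℝ) (x : ι → ℝ) (o : Option ι) : bl (c • x) o = c * bl x o := by
  cases o with
  | none =>
    show -∑ i, c * x i = c * -∑ i, x i
    rw [← Finset.mul_sum]; ring
  | some i => rfl

theorem bc_add (x y : ι → ℝ) (o : Option ι) : bc (x + y) o = bl x o + bc y o := by
  cases o with
  | none =>
    show 1 - ∑ i, (x i + y i) = -∑ i, x i + (1 - ∑ i, y i)
    rw [Finset.sum_add_distrib]; ring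
  | some i => rfl

end basic

variable {ι : Type} [Fintype ι] [DecidableEq ι]

theorem bc_co (o : Option ι) (x : ι → ℝ) (o' : Option ι) :
    bc (co o x) o' = bc x (Equiv.swap none o o') := by
  cases o' with
  | some i => rfl
  | none =>
    show 1 - ∑ i, bc x (Equiv.swap none o (some i)) = _
    have h1 := sum_bc x
    rw [← Equiv.sum_comp (Equiv.swap none o), Fintype.sum_option] at h1
    linarith

/-- the linear part of the symmetry -/
def lco (o : Option ι) : (ι → ℝ) →ₗ[ℝ] (ι → ℝ) where
  toFun x := fun i => bl x (Equiv.swap none o (some i))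
  map_add' x y := by
    funext i
    exact bl_add x y _
  map_smul' c x := by
    funext i
    exact bl_smul c x _

theorem bl_lco (o : Option ι) (x : ι → ℝ) (o' : Option ι) :
    bl (lco o x) o' = bl x (Equiv.swap none o o') := by
  cases o' with
  | some i => rfl
  | none =>
    show -∑ i, bl x (Equiv.swap none o (some i)) = _
    have h1 := sum_bl x
    rw [← Equiv.sum_comp (Equiv.swap none o), Fintype.sum_option] at h1
    linarith

theorem co_inv (o : Option ι) : Function.Involutive (co o : (ι → ℝ) → (ι → ℝ)) := by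
  intro x
  funext i
  show bc (co o x) (Equiv.swap none o (some i)) = x i
  rw [bc_co, Equiv.swap_apply_self]
  rfl

theorem lco_inv (o : Option ι) : Function.Involutive (lco o : (ι → ℝ) → (ι → ℝ)) := by
  intro x
  funext i
  show bl (lco o x) (Equiv.swap none o (some i)) = x i
  rw [bl_lco, Equiv.swap_apply_self]
  rfl

theorem co_add (o : Option ι) (v x : ι → ℝ) : co o (v + x) = lco o v + co o x := by
  funext i
  exact bc_add v x _

theorem co_eq (o : Option ι) (x : ι → ℝ) : co o x = lco o x + co o 0 := by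
  have h := co_add o x 0
  rwa [add_zero] at h

theorem abs_det_lco (o : Option ι) : |LinearMap.det (lco o : (ι → ℝ) →ₗ[ℝ] (ι → ℝ))| = 1 := by
  have h1 : (lco o : (ι → ℝ) →ₗ[ℝ] (ι → ℝ)) ∘ₗ lco o = LinearMap.id := by
    apply LinearMap.ext
    intro x
    exact lco_inv o x
  have h2 : LinearMap.det (lco o : (ι → ℝ) →ₗ[ℝ] (ι → ℝ)) *
      LinearMap.det (lco o : (ι → ℝ) →ₗ[ℝ] (ι → ℝ)) = 1 := by
    rw [← LinearMap.det_comp, h1, LinearMap.det_id]
  have h3 : |LinearMap.det (lco o : (ι → ℝ) →ₗ[ℝ] (ι → ℝ))| *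
      |LinearMap.det (lco o : (ι → ℝ) →ₗ[ℝ] (ι → ℝ))| = 1 := by
    rw [← abs_mul, h2, abs_one]
  nlinarith [abs_nonneg (LinearMap.det (lco o : (ι → ℝ) →ₗ[ℝ] (ι → ℝ)))]

theorem volume_co (o : Option ι) (S : Set (ι → ℝ)) : volume (co o '' S) = volume S := by
  have h1 : co o '' S = (fun y => y + co o 0) '' (lco o '' S) := by
    rw [Set.image_image]
    apply Set.image_congr
    intro x _
    exact co_eq o x
  rw [h1, Set.image_add_right, measure_preimage_add_right, Measure.addHaar_image_linearMap,
    abs_det_lco, ENNReal.ofReal_one, one_mul]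

theorem continuous_co (o : Option ι) : Continuous (co o : (ι → ℝ) → (ι → ℝ)) := by
  have h1 : (co o : (ι → ℝ) → (ι → ℝ)) = fun x => lco o x + co o 0 := by
    funext x
    exact co_eq o x
  rw [h1]
  exact ((lco o : (ι → ℝ) →ₗ[ℝ] (ι → ℝ)).continuous_of_finiteDimensional).add continuous_const

theorem sym (o : Option ι) :
    Function.Involutive (co o : (ι → ℝ) → (ι → ℝ)) ∧ (∀ x : ι → ℝ, co o x ∈ T ι ↔ x ∈ T ι) ∧
    (∀ (x : ι → ℝ) (o' : Option ι), bc (co o x) o' = bc x (Equiv.swap none o o')) ∧
    (∃ A : (ι → ℝ) ≃ᵃ[ℝ] (ι → ℝ), ∀ x, A x = co o x) ∧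
    (∀ S : Set (ι → ℝ), volume (co o '' S) = volume S) ∧
    MeasurePreserving (co o : (ι → ℝ) → (ι → ℝ)) volume volume := by
  refine ⟨co_inv o, ?_, bc_co o, ?_, volume_co o, ?_⟩
  · intro x
    rw [mem_T_iff, mem_T_iff]
    simp only [bc_co]
    constructor
    · intro h o'
      have := h (Equiv.swap none o o')
      rwa [Equiv.swap_apply_self] at this
    · intro h o'
      exact h _
  · refine ⟨{ toEquiv := (co_inv o).toPerm
              linear := LinearEquiv.ofInvolutive (lco o) (lco_inv o)
              map_vadd' := ?_ }, ?_⟩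
    · intro p v
      exact co_add o v p
    · intro x
      rfl
  · refine ⟨(continuous_co o).measurable, ?_⟩
    ext S hS
    rw [Measure.map_apply (continuous_co o).measurable hS, ← (co_inv o).image_eq_preimage_symm,
      volume_co]

end Pool.Agent.Helper8.LM
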